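import Pool.Agent.Helper80.HD.GoalsB

/-!
# GNM: Gauss's lemma and simple facts on the Gauss norm (project HD)
-/

set_option autoImplicit false

open MvPolynomial

noncomputable section

namespace Pool.Agent.Helper61.HD

open Pool.Agent.Helper80.HD

section basic

variable {R : Type} [CommRing R] {σ : Type} (w : AbsoluteValue R ℝ)

theorem gn_zero : gn w (0 : MvPolynomial σ R) = 0 := by
  have : IsEmpty (0 : MvPolynomial σ R).support := by
    rw [MvPolynomial.support_zero]
    infer_instance
  exact Real.iSup_of_isEmpty _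

theorem gn_nonneg (P : MvPolynomial σ R) : 0 ≤ gn w P :=
  Real.iSup_nonneg fun _ => w.nonneg _

theorem le_gn (P : MvPolynomial σ R) (s : σ →₀ ℕ) : w (P.coeff s) ≤ gn w P := by
  by_cases h : s ∈ P.support
  · exact le_ciSup (f := fun s : P.support => w (P.coeff s)) (Set.finite_range _).bddAbove ⟨s, h⟩
  · rw [MvPolynomial.notMem_support_iff.1 h, map_zero]
    exact gn_nonneg w P

theorem exists_gn {P : MvPolynomial σ R} (h : P ≠ 0) :
    ∃ s ∈ P.support, gn w P = w (P.coeff s) := by
  have : Nonempty P.support := by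
    obtain ⟨s, hs⟩ := MvPolynomial.support_nonempty.2 h
    exact ⟨⟨s, hs⟩⟩
  obtain ⟨s, hs⟩ := exists_eq_ciSup_of_finite (f := fun s : P.support => w (P.coeff s))
  exact ⟨s, s.2, hs.symm⟩

theorem gn_le {P : MvPolynomial σ R} {c : ℝ} (hc : 0 ≤ c) (h : ∀ s, w (P.coeff s) ≤ c) :
    gn w P ≤ c := Real.iSup_le (fun s => h s) hc

theorem gn_pos {P : MvPolynomial σ R} (h : P ≠ 0) : 0 < gn w P := by
  obtain ⟨s, hs, h1⟩ := exists_gn w h
  rw [h1]
  exact w.pos (MvPolynomial.mem_support_iff.1 hs)

theorem gn_C (c : R) : gn w (C c : MvPolynomial σ R) = w c := by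
  classical
  apply le_antisymm
  · refine gn_le w (w.nonneg c) fun s => ?_
    rw [MvPolynomial.coeff_C]
    split_ifs
    · exact le_rfl
    · rw [map_zero]; exact w.nonneg c
  · have := le_gn w (C c : MvPolynomial σ R) 0
    rwa [MvPolynomial.coeff_zero_C] at this

theorem gn_C_mul (c : R) (P : MvPolynomial σ R) : gn w (C c * P) = w c * gn w P := by
  apply le_antisymm
  · refine gn_le w (mul_nonneg (w.nonneg c) (gn_nonneg w P)) fun s => ?_
    rw [MvPolynomial.coeff_C_mul, map_mul]
    exact mul_le_mul_of_nonneg_left (le_gn w P s) (w.nonneg c)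
  · by_cases h : P = 0
    · rw [h, gn_zero, mul_zero]
      exact gn_nonneg w _
    · obtain ⟨s, _, h1⟩ := exists_gn w h
      rw [h1, ← map_mul, ← MvPolynomial.coeff_C_mul]
      exact le_gn w _ s

theorem gn_map {R' : Type} [CommRing R'] (ι : R →+* R') (w' : AbsoluteValue R' ℝ)
    (h : ∀ x, w' (ι x) = w x) (P : MvPolynomial σ R) : gn w' (map ι P) = gn w P := by
  apply le_antisymm
  · refine gn_le w' (gn_nonneg w P) fun s => ?_
    rw [MvPolynomial.coeff_map, h]
    exact le_gn w P s
  · refine gn_le w (gn_nonneg w' _) fun s => ?_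
    rw [← h, ← MvPolynomial.coeff_map]
    exact le_gn w' _ s

/-- sums of small elements are small -/
theorem sum_lt (hw : IsNonarchimedean w) {ι : Type*} (s : Finset ι) (f : ι → R) {c : ℝ}
    (hc : 0 < c) (h : ∀ i ∈ s, w (f i) < c) : w (∑ i ∈ s, f i) < c := by
  classical
  induction s using Finset.induction_on with
  | empty => simpa using hc
  | insert i s hi ih =>
    rw [Finset.sum_insert hi]
    refine (hw _ _).trans_lt (max_lt (h i (Finset.mem_insert_self i s)) ?_)
    exact ih fun j hj => h j (Finset.mem_insert_of_mem hj)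

theorem sum_le (hw : IsNonarchimedean w) {ι : Type*} (s : Finset ι) (f : ι → R) {c : ℝ}
    (hc : 0 ≤ c) (h : ∀ i ∈ s, w (f i) ≤ c) : w (∑ i ∈ s, f i) ≤ c := by
  classical
  induction s using Finset.induction_on with
  | empty => simpa using hc
  | insert i s hi ih =>
    rw [Finset.sum_insert hi]
    refine (hw _ _).trans (max_le (h i (Finset.mem_insert_self i s)) ?_)
    exact ih fun j hj => h j (Finset.mem_insert_of_mem hj)

/-- the largest monomial with a coefficient of maximal absolute value -/
theorem exists_top (m : MonomialOrder σ) {P : MvPolynomial σ R} (h : P ≠ 0) :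
    ∃ s, gn w P = w (P.coeff s) ∧ ∀ t, m.toSyn s < m.toSyn t → w (P.coeff t) < gn w P := by
  classical
  have hne : (P.support.filter fun s => w (P.coeff s) = gn w P).Nonempty := by
    obtain ⟨s, hs, h1⟩ := exists_gn w h
    exact ⟨s, Finset.mem_filter.2 ⟨hs, h1.symm⟩⟩
  obtain ⟨s, hs, hmax⟩ := Finset.exists_max_image _ (fun s => m.toSyn s) hne
  rw [Finset.mem_filter] at hs
  refine ⟨s, hs.2.symm, fun t ht => lt_of_le_of_ne (le_gn w P t) fun he => ?_⟩
  have htm : t ∈ P.support := by
    rw [MvPolynomial.mem_support_iff]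
    intro h0
    rw [h0, map_zero] at he
    exact absurd he (gn_pos w h).ne
  exact absurd (hmax t (Finset.mem_filter.2 ⟨htm, he⟩)) (not_le.2 ht)

theorem gn_mul (hw : IsNonarchimedean w) [Finite σ] [IsDomain R] (P Q : MvPolynomial σ R) :
    gn w (P * Q) = gn w P * gn w Q := by
  classical
  by_cases hP : P = 0
  · rw [hP, zero_mul, gn_zero, zero_mul]
  by_cases hQ : Q = 0
  · rw [hQ, mul_zero, gn_zero, mul_zero]
  have ha := gn_pos w hP
  have hb := gn_pos w hQ
  have hab := mul_pos ha hb
  apply le_antisymm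
  · refine gn_le w hab.le fun s => ?_
    rw [MvPolynomial.coeff_mul]
    refine sum_le w hw _ _ hab.le fun x _ => ?_
    rw [map_mul]
    exact mul_le_mul (le_gn w P _) (le_gn w Q _) (w.nonneg _) ha.le
  · let _ : LinearOrder σ := linearOrderOfSTO WellOrderingRel
    have m : MonomialOrder σ := MonomialOrder.lex
    obtain ⟨s, hs, hs'⟩ := exists_top w m hP
    obtain ⟨t, ht, ht'⟩ := exists_top w m hQ
    have hmem : (s, t) ∈ Finset.HasAntidiagonal.antidiagonal (s + t) := Finset.HasAntidiagonal.mem_antidiagonal.2 rfl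
    have hc : (P * Q).coeff (s + t) = P.coeff s * Q.coeff t +
        ∑ x ∈ (Finset.HasAntidiagonal.antidiagonal (s + t)).erase (s, t), P.coeff x.1 * Q.coeff x.2 := by
      rw [MvPolynomial.coeff_mul, ← Finset.add_sum_erase _ _ hmem]
    have hr : w (∑ x ∈ (Finset.HasAntidiagonal.antidiagonal (s + t)).erase (s, t), P.coeff x.1 * Q.coeff x.2) <
        gn w P * gn w Q := by
      refine sum_lt w hw _ _ hab fun x hx => ?_
      rw [Finset.mem_erase, Finset.HasAntidiagonal.mem_antidiagonal] at hx
      obtain ⟨hne, hsum⟩ := hx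
      rw [map_mul]
      by_cases h1 : m.toSyn s < m.toSyn x.1
      · calc w (P.coeff x.1) * w (Q.coeff x.2) ≤ w (P.coeff x.1) * gn w Q :=
              mul_le_mul_of_nonneg_left (le_gn w Q _) (w.nonneg _)
          _ < gn w P * gn w Q := mul_lt_mul_of_pos_right (hs' _ h1) hb
      · have h2 : m.toSyn x.1 ≤ m.toSyn s := not_lt.1 h1
        have h3 : m.toSyn t < m.toSyn x.2 := by
          by_contra h4
          have h4 : m.toSyn x.2 ≤ m.toSyn t := not_lt.1 h4
          have h5 : m.toSyn x.1 + m.toSyn x.2 = m.toSyn s + m.toSyn t := by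
            rw [← map_add, ← map_add, hsum]
          have h6 : m.toSyn x.1 = m.toSyn s := by
            refine le_antisymm h2 ?_
            by_contra h7
            have h7 : m.toSyn x.1 < m.toSyn s := not_le.1 h7
            exact absurd h5 (add_lt_add_of_lt_of_le h7 h4).ne
          have h8 : x.1 = s := m.toSyn.injective h6
          have h9 : x.2 = t := by
            rw [h8] at hsum
            exact add_left_cancel hsum
          exact hne (Prod.ext h8 h9)
        calc w (P.coeff x.1) * w (Q.coeff x.2) ≤ gn w P * w (Q.coeff x.2) :=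
              mul_le_mul_of_nonneg_right (le_gn w P _) (w.nonneg _)
          _ < gn w P * gn w Q := mul_lt_mul_of_pos_left (ht' _ h3) ha
    have hx : w (P.coeff s * Q.coeff t) = gn w P * gn w Q := by rw [map_mul, hs, ht]
    refine le_trans ?_ (le_gn w (P * Q) (s + t))
    rw [← not_lt]
    intro hlt
    rw [hc] at hlt
    have h10 : w (P.coeff s * Q.coeff t) < gn w P * gn w Q := by
      have e : P.coeff s * Q.coeff t = (P.coeff s * Q.coeff t +
        ∑ x ∈ (Finset.HasAntidiagonal.antidiagonal (s + t)).erase (s, t), P.coeff x.1 * Q.coeff x.2) +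
        -∑ x ∈ (Finset.HasAntidiagonal.antidiagonal (s + t)).erase (s, t), P.coeff x.1 * Q.coeff x.2 := by ring
      rw [e]
      refine (hw _ _).trans_lt (max_lt hlt ?_)
      rw [w.map_neg]
      exact hr
    exact absurd hx h10.ne

theorem gn_prod (hw : IsNonarchimedean w) [Finite σ] [IsDomain R] {ι : Type} (s : Finset ι)
    (P : ι → MvPolynomial σ R) : gn w (∏ i ∈ s, P i) = ∏ i ∈ s, gn w (P i) := by
  classical
  induction s using Finset.induction_on with
  | empty =>
    rw [Finset.prod_empty, Finset.prod_empty, ← C_1, gn_C, map_one]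
  | insert i s hi ih => rw [Finset.prod_insert hi, Finset.prod_insert hi, gn_mul w hw, ih]

theorem gn_pow (hw : IsNonarchimedean w) [Finite σ] [IsDomain R] (P : MvPolynomial σ R) (e : ℕ) :
    gn w (P ^ e) = gn w P ^ e := by
  induction e with
  | zero => rw [pow_zero, pow_zero, ← C_1, gn_C, map_one]
  | succ e ih => rw [pow_succ, pow_succ, gn_mul w hw, ih]

end basic

section vec

variable {R : Type} [CommRing R] {N : ℕ} (w : AbsoluteValue R ℝ) (x : Fin (N + 1) → R)

theorem le_vn (j : Fin (N + 1)) : w (x j) ≤ vn w x :=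
  le_ciSup (f := fun j => w (x j)) (Set.finite_range _).bddAbove j

theorem exists_vn : ∃ j, vn w x = w (x j) := by
  obtain ⟨j, hj⟩ := exists_eq_ciSup_of_finite (f := fun j => w (x j))
  exact ⟨j, hj.symm⟩

theorem vn_pos (h : x ≠ 0) : 0 < vn w x := by
  obtain ⟨j, hj⟩ := Function.ne_iff.1 h
  exact (w.pos hj).trans_le (le_vn w x j)

theorem coeff_lin (s : Fin (N + 1) →₀ ℕ) : (∑ j, C (x j) * X j : MvPolynomial (Fin (N + 1)) R).coeff s =
    ∑ j, if Finsupp.single j 1 = s then x j else 0 := by
  classical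
  rw [MvPolynomial.coeff_sum]
  refine Finset.sum_congr rfl fun j _ => ?_
  rw [MvPolynomial.coeff_C_mul, MvPolynomial.coeff_X]
  split_ifs
  · rw [mul_one]
  · rw [mul_zero]

theorem gn_lin : gn w (∑ j, C (x j) * X j) = vn w x := by
  classical
  have hv : 0 ≤ vn w x := (w.nonneg _).trans (le_vn w x 0)
  have h1 : ∀ j, (∑ j, C (x j) * X j : MvPolynomial (Fin (N + 1)) R).coeff (Finsupp.single j 1) =
      x j := by
    intro j
    rw [coeff_lin, Finset.sum_eq_single j]
    · rw [if_pos rfl]
    · intro i _ hij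
      rw [if_neg]
      intro h
      exact hij ((Finsupp.single_left_inj one_ne_zero).1 h)
    · intro h
      exact absurd (Finset.mem_univ j) h
  apply le_antisymm
  · refine gn_le w hv fun s => ?_
    by_cases h : ∃ j, Finsupp.single j 1 = s
    · obtain ⟨j, rfl⟩ := h
      rw [h1]
      exact le_vn w x j
    · rw [coeff_lin, Finset.sum_eq_zero, map_zero]
      · exact hv
      · intro j _
        rw [if_neg]
        intro hj
        exact h ⟨j, hj⟩
  · obtain ⟨j, hj⟩ := exists_vn w x
    rw [hj, ← h1 j]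
    exact le_gn w _ _

end vec

theorem gnm : S_GNM := by
  refine ⟨?_, ?_, ?_⟩
  · intro R _ σ _ w hw
    exact ⟨gn_mul w hw, gn_pow w hw, fun ι s P => gn_prod w hw s P⟩
  · intro R _ σ w
    exact ⟨fun P h => gn_pos w h, gn_C w, gn_C_mul w, le_gn w, fun P h => exists_gn w h,
      fun R' _ ι w' h P => gn_map w ι w' h P⟩
  · intro R _ N w x
    exact ⟨le_vn w x, exists_vn w x, vn_pos w x, gn_lin w x⟩

end Pool.Agent.Helper61.HD
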