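import Pool.Agent.Helper80.HD.GoalsB

/-!
# NFT: the norm form in a tower (project HD)
-/

set_option autoImplicit false

open MvPolynomial

noncomputable section

namespace Pool.Agent.Helper61.HD

open Pool.Agent.Helper80.HD

theorem nft (h : S_NF) : S_NFT := by
  intro L _ _ _ E F' _ _ N v hEF hv
  have hvF : ∀ j, v j ∈ F' := fun j => hEF (hv j)
  let _ : Algebra E F' := (IntermediateField.inclusion hEF).toRingHom.toAlgebra
  have hst : IsScalarTower L E F' := IsScalarTower.of_algebraMap_eq fun x => rfl
  have hfin : Module.finrank E F' = E.relfinrank F' := by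
    have h1 := IntermediateField.finrank_bot_mul_relfinrank hEF
    have h2 := Module.finrank_mul_finrank L E F'
    have h3 : 0 < Module.finrank L E := Module.finrank_pos
    exact Nat.eq_of_mul_eq_mul_left h3 (h2.trans h1.symm)
  apply MvPolynomial.funext
  intro t
  rw [map_pow, (h L F' N (toE F' v)).1 t, (h L E N (toE E v)).1 t, ← hfin]
  have hfd : FiniteDimensional E F' := FiniteDimensional.right L E F'
  have key : (∑ j, algebraMap L F' (t j) * toE F' v j) =
      algebraMap E F' (∑ j, algebraMap L E (t j) * toE E v j) := by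
    rw [map_sum]
    refine Finset.sum_congr rfl fun j _ => ?_
    rw [map_mul, ← IsScalarTower.algebraMap_apply]
    congr 1
    have e1 : toE F' v j = ⟨v j, hvF j⟩ := dif_pos (hvF j)
    have e2 : toE E v j = ⟨v j, hv j⟩ := dif_pos (hv j)
    rw [e1, e2]
    rfl
  rw [key, ← Algebra.norm_norm (S := E), Algebra.norm_algebraMap, map_pow]

end Pool.Agent.Helper61.HD
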